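import Pool.Agent.D0H64.MX.Stm

/-!
# Project MX (helper64), module 15 REAX
-/

set_option autoImplicit false

open NumberField

namespace Pool.Agent.D0H20.MX

open Pool.Agent.TH444.ML Pool.Agent.D0H64.MX

/-- an embedding extends to an automorphism -/
theorem exists_ext {K Ω : Type} [Field K] [Field Ω] [Algebra K Ω] [IsAlgClosure K Ω]
    (M : IntermediateField K Ω) (φ : M →ₐ[K] Ω) :
    ∃ σ : Ω ≃ₐ[K] Ω, σ.toAlgHom.comp M.val = φ := by
  have := IsAlgClosure.isAlgebraic (R := K) (K := Ω)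
  have := IsAlgClosure.isAlgClosed (R := K) (K := Ω)
  obtain ⟨ψ, hψ⟩ := IsAlgClosed.surjective_domRestrict_of_isAlgebraic (K := K) (L := M) (M := Ω)
    (E := Ω) φ
  refine ⟨AlgEquiv.ofBijective ψ (Algebra.IsAlgebraic.algHom_bijective ψ), ?_⟩
  ext x
  exact DFunLike.congr_fun hψ x

theorem t_REAX : S_REAX := by
  intro K Ω _ _ _ _ _ H X _ _ _ _ _ _ _ hne
  obtain ⟨N, hN, hG, ⟨Θ⟩⟩ := hne
  have := IsAlgClosure.normal K Ω
  obtain ⟨x₀⟩ := ‹Nonempty X›
  let S : Subgroup (N ≃ₐ[K] N) := (MulAction.stabilizer H x₀).comap Θ.toMonoidHom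
  let M' : IntermediateField K N := IntermediateField.fixedField S
  let M : IntermediateField K Ω := IntermediateField.lift M'
  have hM : FiniteDimensional K M :=
    LinearEquiv.finiteDimensional (IntermediateField.liftAlgEquiv M').toLinearEquiv
  let r : (Ω ≃ₐ[K] Ω) →* (N ≃ₐ[K] N) := AlgEquiv.restrictNormalHom N
  have hr : ∀ (σ : Ω ≃ₐ[K] Ω) (y : N), ((r σ y : N) : Ω) = σ y := fun σ y =>
    AlgEquiv.restrictNormal_commutes σ N y
  have hrs : Function.Surjective r := AlgEquiv.restrictNormalHom_surjective Ω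
  have key : ∀ σ τ : Ω ≃ₐ[K] Ω, σ.toAlgHom.comp M.val = τ.toAlgHom.comp M.val ↔
      Θ (r σ) • x₀ = Θ (r τ) • x₀ := by
    intro σ τ
    have h1 : σ.toAlgHom.comp M.val = τ.toAlgHom.comp M.val ↔ (r τ)⁻¹ * r σ ∈ S := by
      have h2 : (r τ)⁻¹ * r σ ∈ S ↔ (r τ)⁻¹ * r σ ∈ IntermediateField.fixingSubgroup M' := by
        rw [show IntermediateField.fixingSubgroup M' = S from
          IntermediateField.fixingSubgroup_fixedField S]
      rw [h2, IntermediateField.mem_fixingSubgroup_iff]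
      constructor
      · intro h y hy
        have hyM : (y : Ω) ∈ M := (IntermediateField.mem_lift y).2 hy
        have h3 := DFunLike.congr_fun h (⟨y, hyM⟩ : M)
        change σ (y : Ω) = τ (y : Ω) at h3
        rw [← hr, ← hr] at h3
        have h4 : r σ y = r τ y := Subtype.ext h3
        rw [AlgEquiv.mul_apply, h4]
        exact (r τ).symm_apply_apply y
      · intro h
        ext ⟨z, hz⟩
        have hzN : z ∈ N := IntermediateField.lift_le M' hz
        have hy : (⟨z, hzN⟩ : N) ∈ M' := (IntermediateField.mem_lift (⟨z, hzN⟩ : N)).1 hz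
        have h3 := h _ hy
        rw [AlgEquiv.mul_apply] at h3
        have h4 : r σ ⟨z, hzN⟩ = r τ ⟨z, hzN⟩ := by
          have h5 : r τ ((r τ)⁻¹ (r σ ⟨z, hzN⟩)) = r τ ⟨z, hzN⟩ := congrArg (r τ) h3
          exact ((r τ).apply_symm_apply (r σ ⟨z, hzN⟩)).symm.trans h5
        change σ z = τ z
        have h6 := congrArg (Subtype.val) h4
        rw [hr, hr] at h6
        exact h6
    rw [h1]
    change Θ ((r τ)⁻¹ * r σ) • x₀ = x₀ ↔ _
    rw [map_mul, map_inv, mul_smul, inv_smul_eq_iff]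
  choose s hs using fun φ : M →ₐ[K] Ω => exists_ext M φ
  have he : ∀ (σ : Ω ≃ₐ[K] Ω) (φ : M →ₐ[K] Ω), σ.toAlgHom.comp M.val = φ →
      Θ (r (s φ)) • x₀ = Θ (r σ) • x₀ := fun σ φ h => (key _ _).1 ((hs φ).trans h.symm)
  let e : (M →ₐ[K] Ω) ≃ X := Equiv.ofBijective (fun φ => Θ (r (s φ)) • x₀) (by
    constructor
    · intro φ ψ h
      have := (key _ _).2 h
      rwa [hs, hs] at this
    · intro x
      obtain ⟨h, hh⟩ := MulAction.exists_smul_eq H x₀ x
      obtain ⟨σ, hσ⟩ := hrs (Θ.symm h)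
      refine ⟨σ.toAlgHom.comp M.val, ?_⟩
      change Θ (r (s _)) • x₀ = x
      rw [he σ _ rfl, hσ, MulEquiv.apply_symm_apply, hh])
  have hmul : ∀ (σ : Ω ≃ₐ[K] Ω) (φ : M →ₐ[K] Ω), e (σ.toAlgHom.comp φ) = Θ (r σ) • e φ := by
    intro σ φ
    change Θ (r (s _)) • x₀ = Θ (r σ) • Θ (r (s φ)) • x₀
    rw [he (σ * s φ) (σ.toAlgHom.comp φ) (by
      conv_rhs => rw [← hs φ]
      rfl), map_mul, map_mul, mul_smul]
  refine ⟨M, hM, e, fun h => ?_, fun σ => ⟨Θ (r σ), hmul σ⟩⟩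
  obtain ⟨σ, hσ⟩ := hrs (Θ.symm h)
  refine ⟨σ, fun φ => ?_⟩
  rw [hmul, hσ, MulEquiv.apply_symm_apply]

end Pool.Agent.D0H20.MX
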